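import Pool.Agent.H39Z.SSP.Main

/-!
# The subset sum problem of a finitely generated metabelian group that is not virtually nilpotent
is NP-complete
-/

namespace Pool.Agent.Results.MP_521f94_lc.AMetabelianNPComplete

open Pool.Agent.NPC Pool.Agent.H39Z.SSP

/-- Let `G` be generated by `x 0, …, x (n - 1)`, metabelian and without a nilpotent subgroup of
finite index. Then the subset sum problem of `G` is in `NP` and is `NP`-hard under
polynomial-time many-one reductions. -/
theorem result (G : Type*) [Group G] (n : ℕ) (x : Fin n → G)
    (hx : Subgroup.closure (Set.range x) = ⊤)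
    (hmet : ∀ a ∈ commutator G, ∀ b ∈ commutator G, a * b = b * a)
    (hvn : ¬ ∃ H : Subgroup G, H.FiniteIndex ∧ Group.IsNilpotent H) :
    InNP (lang (SubsetSum x)) ∧ NPHard (lang (SubsetSum x)) :=
  main G n x hx hmet hvn

end Pool.Agent.Results.MP_521f94_lc.AMetabelianNPComplete
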